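import Pool.Agent.E8helper66.GB.Stm
import Pool.Agent.H373R2.T7.SysCount
import Pool.Agent.H373R2.T7.SingLow
import Pool.Agent.H373R2.T7.LamZ2

set_option autoImplicit false

/-!
# Project GB, piece 14 (LOC): local densities of the sieve model of the weight of an edge

Proves `t_LOC : S_LOC`.
-/

namespace Pool.Agent.E8helper54.GB

open Finset
open Pool.Agent.H373R2.T7
open Pool.Agent.E8helper66.GB

/-- the constant of `local_low` -/
noncomputable def cm (m : ℕ) : ℝ := (1 / (3 * m : ℝ)) ^ (3 * m) * Real.exp (-(2 * (m : ℝ) ^ 2))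

lemma cm_pos (m : ℕ) (hm : 1 ≤ m) : 0 < cm m := by
  have : (0 : ℝ) < m := by exact_mod_cast hm
  unfold cm
  positivity

open Classical in
/-- lower bound for a sieved interval, with the weight `Vz⁻¹ ^ m` -/
lemma gen (m K : ℕ) (hm : 1 ≤ m) : ∃ n₀ : ℕ, ∀ n : ℕ, n₀ ≤ n → ∀ z : ℕ, 1 ≤ z → (z : ℝ) ≤ Real.log n ^ K →
    ∀ Q : ℕ → ℕ → Prop, PerB Q m → (∀ p, p.Prime → nuB Q p + 1 ≤ p) →
    cm m / 2 * n ≤ ((Vz z)⁻¹) ^ m * ((((Icc 1 n).filter (fun b : ℕ => ∀ p ∈ pz z, ¬ Q p b)).card : ℕ) : ℝ) := by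
  obtain ⟨n1, h1⟩ := sys_count m K (m + 1) hm
  obtain ⟨n2, h2⟩ := Vz_inv_small K
  obtain ⟨n3, h3⟩ := ev_L' (2 / cm m + 1)
  refine ⟨max n1 (max n2 n3), fun n hn z hz hzK Q hQ hadm => ?_⟩
  have a1 := h1 n (le_trans (le_max_left _ _) hn) z hz hzK Q hQ
  have a2 := h2 n (le_trans (le_trans (le_max_left _ _) (le_max_right _ _)) hn) z hz hzK
  have a3 := h3 n (le_trans (le_trans (le_max_right _ _) (le_max_right _ _)) hn)
  have hcm := cm_pos m hm
  have hdiv : 0 < 2 / cm m := by positivity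
  set L := Real.log n with hL
  have hL0 : 0 < L := by linarith
  have hV0 : 0 < (Vz z)⁻¹ := inv_pos.2 (Vz_pos z)
  have hn0 : (0 : ℝ) ≤ n := Nat.cast_nonneg n
  -- the main term
  have hmain : cm m ≤ ((Vz z)⁻¹) ^ m * ∏ p ∈ pz z, (1 - (nuB Q p : ℝ) / p) := by
    have h4 := local_low m hm (nuB Q) z (fun p hp => hQ.few p (mem_pz.1 hp).2) (fun p hp => hadm p (mem_pz.1 hp).2)
    refine h4.trans (le_of_eq ?_)
    rw [prod_div_distrib, prod_pow]
    unfold Vz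
    rw [inv_pow, div_eq_mul_inv, mul_comm]
  have hVm : ((Vz z)⁻¹) ^ m ≤ L ^ m := pow_le_pow_left₀ hV0.le a2 m
  have hVm0 : 0 < ((Vz z)⁻¹) ^ m := by positivity
  have a4 := (abs_le.1 a1).1
  have herr : ((Vz z)⁻¹) ^ m * (n / L ^ (m + 1)) ≤ cm m / 2 * n := by
    calc ((Vz z)⁻¹) ^ m * (n / L ^ (m + 1)) ≤ L ^ m * (n / L ^ (m + 1)) :=
          mul_le_mul_of_nonneg_right hVm (by positivity)
      _ = n / L := by rw [pow_succ]; field_simp
      _ ≤ cm m / 2 * n := by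
          rw [div_le_iff₀ hL0]
          have h5 : 1 ≤ cm m / 2 * L := by
            have h6 : cm m / 2 * (2 / cm m) = 1 := by field_simp
            nlinarith
          nlinarith
  have h5 : ((Vz z)⁻¹) ^ m * (n * ∏ p ∈ pz z, (1 - (nuB Q p : ℝ) / p) - n / L ^ (m + 1)) ≤
      ((Vz z)⁻¹) ^ m * ((((Icc 1 n).filter (fun b : ℕ => ∀ p ∈ pz z, ¬ Q p b)).card : ℕ) : ℝ) := by
    apply mul_le_mul_of_nonneg_left _ hVm0.le
    linarith
  refine le_trans ?_ h5
  have h6 : cm m * n ≤ (((Vz z)⁻¹) ^ m * ∏ p ∈ pz z, (1 - (nuB Q p : ℝ) / p)) * n :=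
    mul_le_mul_of_nonneg_right hmain hn0
  have h7 : ((Vz z)⁻¹) ^ m * (n * ∏ p ∈ pz z, (1 - (nuB Q p : ℝ) / p) - n / L ^ (m + 1)) =
      (((Vz z)⁻¹) ^ m * ∏ p ∈ pz z, (1 - (nuB Q p : ℝ) / p)) * n - ((Vz z)⁻¹) ^ m * (n / L ^ (m + 1)) := by
    ring
  rw [h7]
  linarith

/-- the condition for one vertex -/
def Q1 (a : ℕ) (p b : ℕ) : Prop := (p : ℤ) ∣ (b : ℤ) + a ∨ (p : ℤ) ∣ (b : ℤ) + -a

/-- the condition for two vertices -/
def Q2 (a c : ℕ) (p b : ℕ) : Prop := Q1 a p b ∨ Q1 c p b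

lemma dvd_mod (t : ℤ) (p n : ℕ) : (p : ℤ) ∣ (n : ℤ) + t ↔ (p : ℤ) ∣ ((n % p : ℕ) : ℤ) + t := by
  have h : ((n : ℤ) + t) = (((n % p : ℕ) : ℤ) + t) + p * ((n / p : ℕ) : ℤ) := by
    have := Nat.mod_add_div n p
    have h2 : ((n % p : ℕ) : ℤ) + (p : ℤ) * ((n / p : ℕ) : ℤ) = n := by exact_mod_cast this
    linarith
  rw [h]
  exact Int.dvd_add_left (dvd_mul_right _ _)

lemma Q1_mod (a p n : ℕ) : Q1 a p n ↔ Q1 a p (n % p) := by
  exact or_congr (dvd_mod _ _ _) (dvd_mod _ _ _)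

open Classical in
lemma one_class (t : ℤ) (p : ℕ) : ((range p).filter (fun r : ℕ => (p : ℤ) ∣ (r : ℤ) + t)).card ≤ 1 := by
  rw [card_le_one]
  intro x hx y hy
  rw [mem_filter, mem_range] at hx hy
  have h : (p : ℤ) ∣ (x : ℤ) - y := by
    have := dvd_sub hx.2 hy.2
    have e : (x : ℤ) + t - (y + t) = x - y := by ring
    rwa [e] at this
  obtain ⟨k, hk⟩ := h
  have hx1 : (x : ℤ) < p := by exact_mod_cast hx.1
  have hy1 : (y : ℤ) < p := by exact_mod_cast hy.1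
  have hk0 : k = 0 := by
    by_contra hk0
    rcases lt_or_gt_of_ne hk0 with h1 | h1
    · have : (p : ℤ) * k ≤ -p := by nlinarith
      omega
    · have : (p : ℤ) ≤ p * k := by nlinarith
      omega
  rw [hk0, mul_zero] at hk
  omega

lemma nuB_Q1 (a p : ℕ) : nuB (Q1 a) p ≤ 2 := by
  classical
  unfold nuB
  have h : (range p).filter (fun r => Q1 a p r) ⊆
      (range p).filter (fun r : ℕ => (p : ℤ) ∣ (r : ℤ) + a) ∪ (range p).filter (fun r : ℕ => (p : ℤ) ∣ (r : ℤ) + -a) := by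
    intro r hr
    rw [mem_filter] at hr
    rw [mem_union, mem_filter, mem_filter]
    rcases hr.2 with h | h
    · exact Or.inl ⟨hr.1, h⟩
    · exact Or.inr ⟨hr.1, h⟩
  have h1 := card_le_card h
  have h2 := card_union_le ((range p).filter (fun r : ℕ => (p : ℤ) ∣ (r : ℤ) + a)) ((range p).filter (fun r : ℕ => (p : ℤ) ∣ (r : ℤ) + -a))
  have h3 := one_class a p
  have h4 := one_class (-a) p
  have h5 : (filter (fun r => Q1 a p r) (range p)).card ≤ 2 := by omega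
  convert h5

lemma nuB_Q2 (a c p : ℕ) : nuB (Q2 a c) p ≤ 4 := by
  classical
  have ha := nuB_Q1 a p
  have hc := nuB_Q1 c p
  unfold nuB at *
  have h : (range p).filter (fun r => Q2 a c p r) ⊆ (range p).filter (fun r => Q1 a p r) ∪ (range p).filter (fun r => Q1 c p r) := by
    intro r hr
    rw [mem_filter] at hr
    rw [mem_union, mem_filter, mem_filter]
    rcases hr.2 with h | h
    · exact Or.inl ⟨hr.1, h⟩
    · exact Or.inr ⟨hr.1, h⟩
  have h1 := card_le_card h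
  have h2 := card_union_le ((range p).filter (fun r => Q1 a p r)) ((range p).filter (fun r => Q1 c p r))
  have ha' : ((range p).filter (fun r => Q1 a p r)).card ≤ 2 := by convert ha
  have hc' : ((range p).filter (fun r => Q1 c p r)).card ≤ 2 := by convert hc
  have h5 : ((range p).filter (fun r => Q2 a c p r)).card ≤ 4 := by omega
  convert h5

lemma per1 (a : ℕ) : PerB (Q1 a) 2 := ⟨fun p n => Q1_mod a p n, fun p _ => nuB_Q1 a p⟩

lemma per2 (a c : ℕ) : PerB (Q2 a c) 4 :=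
  ⟨fun p n => or_congr (Q1_mod a p n) (Q1_mod c p n), fun p _ => nuB_Q2 a c p⟩

/-- one admissible class gives `nuB + 1 ≤ p` -/
lemma adm_of (Q : ℕ → ℕ → Prop) (p r : ℕ) (hr : r < p) (h : ¬ Q p r) : nuB Q p + 1 ≤ p := by
  classical
  unfold nuB
  have h1 : (range p).filter (fun r => Q p r) ⊆ (range p).erase r := by
    intro s hs
    rw [mem_filter] at hs
    rw [mem_erase]
    exact ⟨fun e => h (e ▸ hs.2), hs.1⟩
  have h2 := card_le_card h1
  rw [card_erase_of_mem (mem_range.2 hr), card_range] at h2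
  have h3 : ((range p).filter (fun r => Q p r)).card + 1 ≤ p := by omega
  convert h3

lemma adm2 (a c : ℕ) (hs : Same a c) (p : ℕ) (hp : p.Prime) : nuB (Q2 a c) p + 1 ≤ p := by
  obtain ⟨h2, h3⟩ := hs
  have hp2 := hp.two_le
  by_cases h5 : 5 ≤ p
  · exact (Nat.add_le_add_right (nuB_Q2 a c p) 1).trans h5
  have hp3 : p = 2 ∨ p = 3 := by
    have : p ≠ 4 := by rintro rfl; revert hp; decide
    omega
  rcases hp3 with rfl | rfl
  · apply adm_of _ 2 ((a + 1) % 2) (Nat.mod_lt _ (by norm_num))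
    unfold Q2 Q1
    push_cast
    omega
  · by_cases ha : 3 ∣ a
    · have hc := h3.1 ha
      apply adm_of _ 3 1 (by norm_num)
      unfold Q2 Q1
      push_cast
      omega
    · have hc : ¬ 3 ∣ c := fun h => ha (h3.2 h)
      apply adm_of _ 3 0 (by norm_num)
      unfold Q2 Q1
      push_cast
      omega

lemma adm1 (a : ℕ) (p : ℕ) (hp : p.Prime) : nuB (Q1 a) p + 1 ≤ p := by
  have h := adm2 a a ⟨rfl, Iff.rfl⟩ p hp
  have e : Q2 a a = Q1 a := by
    funext p b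
    unfold Q2
    simp
  rwa [e] at h

lemma dvd_dist (p a b : ℕ) : p ∣ Nat.dist a b ↔ (p : ℤ) ∣ (b : ℤ) + -a := by
  rcases le_total a b with h | h
  · rw [Nat.dist_eq_sub_of_le h, ← Int.natCast_dvd_natCast, Nat.cast_sub h, sub_eq_add_neg]
  · rw [Nat.dist_eq_sub_of_le_right h, ← Int.natCast_dvd_natCast, Nat.cast_sub h, ← dvd_neg]
    have e : -((a : ℤ) - b) = b + -a := by ring
    rw [e]

open Classical in
lemma KZ_eq (z a b : ℕ) : KZ z a b = if ∀ p ∈ pz z, ¬ Q1 a p b then ((Vz z)⁻¹) ^ 2 else 0 := by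
  have e1 : ∀ p : ℕ, Q1 a p b ↔ (p ∣ a + b ∨ p ∣ Nat.dist a b) := by
    intro p
    unfold Q1
    rw [dvd_dist, ← Int.natCast_dvd_natCast, Nat.cast_add, add_comm (a : ℤ) b]
  unfold KZ lamz
  by_cases h1 : ∀ p ∈ pz z, ¬ p ∣ a + b
  · by_cases h2 : ∀ p ∈ pz z, ¬ p ∣ Nat.dist a b
    · rw [if_pos h1, if_pos h2, if_pos]
      · ring
      · intro p hp
        rw [e1]
        exact not_or.2 ⟨h1 p hp, h2 p hp⟩
    · rw [if_neg h2, mul_zero, if_neg]
      intro h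
      exact h2 fun p hp hd => h p hp ((e1 p).2 (Or.inr hd))
  · rw [if_neg h1, zero_mul, if_neg]
    intro h
    exact h1 fun p hp hd => h p hp ((e1 p).2 (Or.inl hd))

open Classical in
lemma KZ2_eq (z a c b : ℕ) : KZ z a b * KZ z c b = if ∀ p ∈ pz z, ¬ Q2 a c p b then ((Vz z)⁻¹) ^ 4 else 0 := by
  rw [KZ_eq, KZ_eq]
  by_cases h1 : ∀ p ∈ pz z, ¬ Q1 a p b
  · by_cases h2 : ∀ p ∈ pz z, ¬ Q1 c p b
    · rw [if_pos h1, if_pos h2, if_pos]
      · ring
      · intro p hp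
        exact not_or.2 ⟨h1 p hp, h2 p hp⟩
    · rw [if_neg h2, mul_zero, if_neg]
      intro h
      exact h2 fun p hp hd => h p hp (Or.inr hd)
  · rw [if_neg h1, zero_mul, if_neg]
    intro h
    exact h1 fun p hp hd => h p hp (Or.inl hd)

theorem t_LOC : S_LOC := by
  classical
  refine ⟨min (cm 2 / 2) (cm 4 / 2), lt_min (half_pos (cm_pos 2 (by norm_num))) (half_pos (cm_pos 4 (by norm_num))), fun K => ?_⟩
  obtain ⟨n1, h1⟩ := gen 2 K (by norm_num)
  obtain ⟨n2, h2⟩ := gen 4 K (by norm_num)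
  refine ⟨max n1 n2, fun n hn z hz hzK => ⟨fun a _ => ?_, fun a _ c _ hs => ?_⟩⟩
  · have a1 := h1 n (le_trans (le_max_left _ _) hn) z hz hzK (Q1 a) (per1 a) (adm1 a)
    have e : ∑ b ∈ Icc 1 n, KZ z a b = ((Vz z)⁻¹) ^ 2 * ((((Icc 1 n).filter (fun b : ℕ => ∀ p ∈ pz z, ¬ Q1 a p b)).card : ℕ) : ℝ) := by
      rw [sum_congr rfl (fun b _ => KZ_eq z a b), ← sum_filter, sum_const, nsmul_eq_mul, mul_comm]
    rw [e]
    refine le_trans (mul_le_mul_of_nonneg_right (min_le_left _ _) (Nat.cast_nonneg n)) ?_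
    exact a1
  · have a1 := h2 n (le_trans (le_max_right _ _) hn) z hz hzK (Q2 a c) (per2 a c) (adm2 a c hs)
    have e : ∑ b ∈ Icc 1 n, KZ z a b * KZ z c b = ((Vz z)⁻¹) ^ 4 * ((((Icc 1 n).filter (fun b : ℕ => ∀ p ∈ pz z, ¬ Q2 a c p b)).card : ℕ) : ℝ) := by
      rw [sum_congr rfl (fun b _ => KZ2_eq z a c b), ← sum_filter, sum_const, nsmul_eq_mul, mul_comm]
    rw [e]
    refine le_trans (mul_le_mul_of_nonneg_right (min_le_right _ _) (Nat.cast_nonneg n)) ?_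
    exact a1

end Pool.Agent.E8helper54.GB
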